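import Pool.Agent.H88C.Count

/-!
The count: cases 2a, 2b and the final statement.
-/

set_option autoImplicit false

namespace Pool.Agent.H88C.Dat

universe u v

variable {V : Type u} {κ : Type v} [DecidableEq V] [DecidableEq κ] (D : Dat V κ)

/-- elements of `S` are pairwise linked -/
theorem S_link {y : κ} (hy : y ∈ D.K) : ∀ s ∈ D.S y, ∀ t ∈ D.S y, s ≠ t →
    D.Lk y (D.K.card + 2 + D.sig) s t := by
  intro s hs t ht hne
  have hsC := D.S_sub y hs
  have htC := D.S_sub y ht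
  rcases D.S_pair hs ht hne with h | h
  · exact D.L0 y hy s hsC t htC hne (D.hns y hy s hsC h) (D.A_of_S hy ht)
  · exact D.hsymm _ _ _ _ (D.L0 y hy t htC s hsC hne.symm (D.hns y hy t htC h) (D.A_of_S hy hs))

/-- CASE 2a: a thin maximizer whose ratio is not an integer -/
theorem case2a {i : κ} (hi : i ∈ D.K) (ht : ∀ v ∈ D.C, D.n i v ≤ 1)
    (hmax : ∀ z ∈ D.K, D.Dd z * D.m i ≤ D.Dd i * D.m z) (h1 : 1 ≤ D.Dd i) (hm2 : 2 ≤ D.m i) :
    D.Goal := by
  classical
  have hKM := D.card_le_M hi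
  have hK1 : 1 ≤ D.K.card := Finset.card_pos.2 ⟨i, hi⟩
  have hSc : (D.S i).card = D.Dd i + 1 := by
    rw [card_S, D.Dd_succ hi, D.thin_T ht]
  -- runs
  have hex : ∀ s, ∃ g, s ∈ D.S i → (g + 1 ≤ D.K.card + D.sig ∧
      (∀ j, 0 < j → j ≤ g → D.Bl (D.b^[j] s)) ∧ ¬ D.Bl (D.b^[g + 1] s)) := by
    intro s
    by_cases hs : s ∈ D.S i
    · obtain ⟨g, hg⟩ := D.exists_run hi (D.S_sub i hs) (D.A_of_S hi hs)
      exact ⟨g, fun _ => hg⟩
    · exact ⟨0, fun h => absurd h hs⟩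
  choose g hg using hex
  have hsum := D.runs_card hi (D.S i) (D.S_sub i) (fun s hs => D.A_of_S hi hs) (D.S_link hi)
    (fun _ => 0) g (fun s hs => by have := (hg s hs).1; omega)
    (fun s hs j hj hj' => (hg s hs).2.1 j hj hj') D.K (fun _ _ _ _ _ _ y hy _ => hy)
  rw [Finset.card_erase_of_mem hi] at hsum
  -- a short run
  have hshort : ∃ s ∈ D.S i, 2 * g s ≤ D.K.card - 1 + D.sig := by
    by_contra hcon
    push Not at hcon
    have h3 : (D.S i).card * (D.K.card - 1 + D.sig + 1) ≤ ∑ s ∈ D.S i, 2 * g s := by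
      rw [← smul_eq_mul]
      exact Finset.card_nsmul_le_sum _ _ _ (fun s hs => hcon s hs)
    rw [← Finset.mul_sum] at h3
    simp only [Nat.sub_zero] at hsum
    have h4 : 2 * (D.K.card - 1 + D.sig + 1) ≤ (D.S i).card * (D.K.card - 1 + D.sig + 1) :=
      Nat.mul_le_mul_right _ (by omega)
    omega
  obtain ⟨s, hs, hgs⟩ := hshort
  have hsC := D.S_sub i hs
  refine D.final_of (D.iter_mem hsC (g s + 1)) (hg s hs).2.2 ?_
  have hb := D.thin_base hi ht hsC (D.A_of_S hi hs) (x := g s) (by omega)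
  have hsumD : 2 * ∑ z ∈ D.K.erase i, D.Dd z ≤ D.Dd i * D.M i := by
    have h5 : ∑ z ∈ D.K.erase i, D.Dd z * D.m i ≤ ∑ z ∈ D.K.erase i, D.Dd i * D.m z :=
      Finset.sum_le_sum (fun z hz => hmax z (Finset.mem_of_mem_erase hz))
    rw [← Finset.sum_mul, ← Finset.mul_sum] at h5
    have h6 : D.M i = ∑ z ∈ D.K.erase i, D.m z := rfl
    rw [h6]
    calc 2 * ∑ z ∈ D.K.erase i, D.Dd z ≤ D.m i * ∑ z ∈ D.K.erase i, D.Dd z :=
          Nat.mul_le_mul_right _ hm2
      _ = (∑ z ∈ D.K.erase i, D.Dd z) * D.m i := by ring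
      _ ≤ _ := h5
  rw [← Finset.add_sum_erase _ _ hi]
  have h7 : D.Dd i * (D.M i + 4 + D.sig) ≤ 2 * (D.Dd i * (D.M i + 2 + D.sig - g s)) := by
    rw [show 2 * (D.Dd i * (D.M i + 2 + D.sig - g s)) =
      D.Dd i * (2 * (D.M i + 2 + D.sig - g s)) by ring]
    exact Nat.mul_le_mul_left _ (by omega)
  have h8 : D.Dd i * (D.M i + 4 + D.sig) = D.Dd i * D.M i + 4 * D.Dd i + D.Dd i * D.sig := by
    ring
  omega

/-- CASE 2b: the maximal ratio is an integer `e`, every maximizer is thin or full -/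
theorem case2b {e : ℕ} (he : 1 ≤ e) (hle : ∀ z ∈ D.K, D.Dd z ≤ e * D.m z)
    (htf : ∀ z ∈ D.K, D.Dd z = e * D.m z → (∀ v ∈ D.C, D.n z v ≤ 1) ∨
      (2 ≤ D.m z ∧ D.u z = 1 ∧ (D.seen z).card = e ∧
        ∀ v ∈ D.C, 1 ≤ D.n z v → D.n z v = D.m z))
    {i : κ} (hi : i ∈ D.K) (hmi : D.Dd i = e * D.m i) : D.Goal := by
  classical
  have hK1 : 1 ≤ D.K.card := Finset.card_pos.2 ⟨i, hi⟩
  set k := ∑ z ∈ D.K, D.m z with hk
  -- windows from a maximizer
  have hbase : ∀ z ∈ D.K, D.Dd z = e * D.m z → ∀ r ∈ D.C, D.A z r → ∀ x,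
      x ≤ D.M z + D.sig → e * (k + 1 + D.sig) ≤ D.nn (D.b^[x + 1] r) + e * x := by
    intro z hz hDz r hr hA x hx
    have hMk : D.M z + D.m z = k := D.M_add hz
    have hm1 := D.hm z hz
    obtain ⟨q, hq⟩ : ∃ q, D.M z + D.sig = x + q := ⟨D.M z + D.sig - x, by omega⟩
    rcases htf z hz hDz with hth | ⟨hm2, hu, hc, hf⟩
    · have h := D.thin_base hz hth hr hA hx
      rw [hDz] at h
      have e1 : D.M z + 2 + D.sig - x = q + 2 := by omega
      rw [e1] at h
      obtain ⟨m', hm'⟩ : ∃ m', D.m z = m' + 1 := ⟨D.m z - 1, by omega⟩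
      have e2 : k + 1 + D.sig = (x + q) + m' + 2 := by omega
      rw [e2]
      rw [hm'] at h
      have e3 : e * (m' + 1) * (q + 2) = e * (q + m' + 2) + e * m' * (q + 1) := by ring
      have e4 : e * (x + q + m' + 2) = e * (q + m' + 2) + e * x := by ring
      rw [e3] at h
      rw [e4]
      have := Nat.zero_le (e * m' * (q + 1))
      omega
    · have h := D.full_base hz hf hm2 hu hr hA hx
      rw [hc] at h
      have e1 : D.M z + D.m z + 1 + D.sig - x = q + D.m z + 1 := by omega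
      rw [e1] at h
      have e2 : k + 1 + D.sig = (x + q) + D.m z + 1 := by omega
      rw [e2]
      have e4 : e * (x + q + D.m z + 1) = e * (q + D.m z + 1) + e * x := by ring
      rw [e4]
      omega
  -- size of `S i`
  have hSc : e + 1 ≤ (D.S i).card := by
    rw [card_S]
    rcases htf i hi hmi with hth | ⟨_, hu, hc, _⟩
    · have h := D.Dd_succ hi
      rw [D.thin_T hth] at h
      have := Nat.mul_le_mul_left e (D.hm i hi)
      omega
    · omega
  -- runs and the last maximizer on the run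
  let Pj : V → ℕ → Prop := fun s j => j = 0 ∨ ∃ z ∈ D.K, D.Dd z = e * D.m z ∧
    D.str z (D.b^[j] s)
  have hex : ∀ s, ∃ q : ℕ × ℕ, s ∈ D.S i → (q.1 + 1 ≤ D.K.card + D.sig ∧
      (∀ j, 0 < j → j ≤ q.1 → D.Bl (D.b^[j] s)) ∧ ¬ D.Bl (D.b^[q.1 + 1] s)) ∧
      (q.2 ≤ q.1 ∧ Pj s q.2 ∧ ∀ j, q.2 < j → j ≤ q.1 → ¬ Pj s j) := by
    intro s
    by_cases hs : s ∈ D.S i
    · obtain ⟨g, hg⟩ := D.exists_run hi (D.S_sub i hs) (D.A_of_S hi hs)
      refine ⟨(g, Nat.findGreatest (Pj s) g), fun _ => ⟨hg, Nat.findGreatest_le _, ?_, ?_⟩⟩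
      · exact Nat.findGreatest_spec (P := Pj s) (Nat.zero_le g) (Or.inl rfl)
      · intro j hj hj'
        exact Nat.findGreatest_is_greatest hj hj'
    · exact ⟨(0, 0), fun h => absurd h hs⟩
  choose q hq using hex
  set B : Finset κ := D.K.filter (fun z => D.Dd z < e * D.m z) with hB
  have hsum := D.runs_card hi (D.S i) (D.S_sub i) (fun s hs => D.A_of_S hi hs) (D.S_link hi)
    (fun s => (q s).2) (fun s => (q s).1) (fun s hs => by have := (hq s hs).1.1; omega)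
    (fun s hs j hj hj' => (hq s hs).1.2.1 j (by omega) hj') B (by
      intro s hs j hj hj' hw y hy hstr
      refine Finset.mem_filter.2 ⟨hy, ?_⟩
      have h1 := (hq s hs).2.2.2 j hj hj'
      have h2 := hle y hy
      by_contra hcon
      exact h1 (Or.inr ⟨y, hy, by omega, hstr⟩))
  -- slack
  set Δ := ∑ z ∈ D.K, (e * D.m z - D.Dd z) with hΔ
  have hΔ1 : ∑ z ∈ D.K, D.Dd z + Δ = e * k := by
    rw [hΔ, ← Finset.sum_add_distrib, hk, Finset.mul_sum]
    exact Finset.sum_congr rfl (fun z hz => by have := hle z hz; omega)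
  have hBΔ : (B.erase i).card ≤ Δ := by
    refine (Finset.card_le_card (Finset.erase_subset _ _)).trans ?_
    rw [hΔ, Finset.card_eq_sum_ones]
    calc ∑ z ∈ B, 1 ≤ ∑ z ∈ B, (e * D.m z - D.Dd z) :=
          Finset.sum_le_sum (fun z hz => by have := (Finset.mem_filter.1 hz).2; omega)
      _ ≤ _ := Finset.sum_le_sum_of_subset (Finset.filter_subset _ _)
  by_contra hgoal
  have hall : ∀ s ∈ D.S i, e * (1 + D.sig) + Δ + 1 ≤ e * ((q s).1 - (q s).2) := by
    intro s hs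
    have hsC := D.S_sub i hs
    have h1 := hq s hs
    have hnot : ¬ (∑ y ∈ D.K, D.Dd y ≤ D.nn (D.b^[(q s).1 + 1] s)) := fun h =>
      hgoal (D.final_of (D.iter_mem hsC _) h1.1.2.2 h)
    have hr : ∃ z ∈ D.K, D.Dd z = e * D.m z ∧ D.A z (D.b^[(q s).2] s) := by
      rcases h1.2.2.1 with h | ⟨z, hz, hDz, hstr⟩
      · refine ⟨i, hi, hmi, ?_⟩
        rw [h]
        exact D.A_of_S hi hs
      · exact ⟨z, hz, hDz, D.hsA z hz _ (D.iter_mem hsC _) hstr⟩
    obtain ⟨z, hz, hDz, hA⟩ := hr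
    have hKM := D.card_le_M hz
    have h2 := hbase z hz hDz _ (D.iter_mem hsC (q s).2) hA ((q s).1 - (q s).2) (by omega)
    rw [← Function.iterate_add_apply,
      show (q s).1 - (q s).2 + 1 + (q s).2 = (q s).1 + 1 by omega] at h2
    have e1 : e * (k + 1 + D.sig) = e * k + e * (1 + D.sig) := by ring
    omega
  have h3 : (D.S i).card * (e * (1 + D.sig) + Δ + 1) ≤
      ∑ s ∈ D.S i, e * ((q s).1 - (q s).2) := by
    rw [← smul_eq_mul]
    exact Finset.card_nsmul_le_sum _ _ _ (fun s hs => hall s hs)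
  rw [← Finset.mul_sum] at h3
  have h4 : e * ∑ s ∈ D.S i, ((q s).1 - (q s).2) ≤ e * (Δ + D.sig) :=
    Nat.mul_le_mul_left _ (by omega)
  have h5 : (e + 1) * (e * (1 + D.sig) + Δ + 1) ≤
      (D.S i).card * (e * (1 + D.sig) + Δ + 1) := Nat.mul_le_mul_right _ hSc
  have h6 : (e + 1) * (e * (1 + D.sig) + Δ + 1) =
      e * (Δ + D.sig) + (e * e * (1 + D.sig) + e + e + Δ + 1) := by ring
  omega

/-- THE COUNT -/
theorem count (hK : D.K.Nonempty) : D.Goal := by
  classical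
  -- a maximizer of `Dd / m`
  obtain ⟨i, hi, hmaxQ⟩ := Finset.exists_max_image D.K (fun z => (D.Dd z : ℚ) / D.m z) hK
  have cross : ∀ z ∈ D.K, ∀ j ∈ D.K, ((D.Dd z : ℚ) / D.m z ≤ (D.Dd j : ℚ) / D.m j ↔
      D.Dd z * D.m j ≤ D.Dd j * D.m z) := by
    intro z hz j hj
    have h1 : (0 : ℚ) < D.m z := by exact_mod_cast D.hm z hz
    have h2 : (0 : ℚ) < D.m j := by exact_mod_cast D.hm j hj
    rw [div_le_div_iff₀ h1 h2]
    exact_mod_cast Iff.rfl
  have hmax : ∀ z ∈ D.K, D.Dd z * D.m i ≤ D.Dd i * D.m z :=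
    fun z hz => (cross z hz i hi).1 (hmaxQ z hz)
  have hmi1 := D.hm i hi
  by_cases h0 : D.Dd i = 0
  · -- no demand
    obtain ⟨v, hv, _, _, _, hAv, _⟩ := D.htwo i hi
    obtain ⟨g, _, _, hun⟩ := D.exists_run hi hv hAv
    refine D.final_of (D.iter_mem hv _) hun ?_
    have : ∑ y ∈ D.K, D.Dd y = 0 := by
      refine Finset.sum_eq_zero (fun z hz => ?_)
      have h1 := hmax z hz
      rw [h0, Nat.zero_mul] at h1
      have h2 : D.Dd z * D.m i = 0 := Nat.le_zero.1 h1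
      rcases Nat.mul_eq_zero.1 h2 with h | h
      · exact h
      · omega
    omega
  have h1 : 1 ≤ D.Dd i := by omega
  -- all maximizers
  by_cases hc1 : ∃ j ∈ D.K, (∀ z ∈ D.K, D.Dd z * D.m j ≤ D.Dd j * D.m z) ∧
      (∃ w ∈ D.C, 2 ≤ D.n j w) ∧ D.Dd j < (D.seen j).card * D.m j
  · obtain ⟨j, hj, hmaxj, ⟨w, hw, hnw⟩, hlt⟩ := hc1
    refine D.case1 hj hw hnw (fun z hz => ?_)
    have h2 := hmaxj z hz
    have h3 := D.hm j hj
    have h4 := D.hm z hz
    by_contra hcon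
    push Not at hcon
    have h5 : (D.seen j).card * D.m z * D.m j ≤ D.Dd z * D.m j := Nat.mul_le_mul_right _ hcon
    have h6 : D.Dd j * D.m z < (D.seen j).card * D.m j * D.m z :=
      Nat.mul_lt_mul_of_pos_right hlt (by omega)
    have h7 : (D.seen j).card * D.m z * D.m j = (D.seen j).card * D.m j * D.m z := by ring
    omega
  push Not at hc1
  -- full or thin
  have hft : ∀ j ∈ D.K, (∀ z ∈ D.K, D.Dd z * D.m j ≤ D.Dd j * D.m z) →
      (∀ v ∈ D.C, D.n j v ≤ 1) ∨ (2 ≤ D.m j ∧ D.u j = 1 ∧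
        D.Dd j = (D.seen j).card * D.m j ∧ ∀ v ∈ D.C, 1 ≤ D.n j v → D.n j v = D.m j) := by
    intro j hj hmaxj
    by_cases hth : ∀ v ∈ D.C, D.n j v ≤ 1
    · exact Or.inl hth
    right
    push Not at hth
    obtain ⟨w, hw, hnw⟩ := hth
    have h2 := hc1 j hj hmaxj ⟨w, hw, hnw⟩
    have h3 := D.Dd_succ hj
    have h4 := D.T_le hj
    have h5 := D.u_le j
    have h6 := D.hnm j hj w hw
    refine ⟨by omega, by omega, by omega, ?_⟩
    intro v hv hnv
    have h7 : D.T j = (D.seen j).card * D.m j := by omega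
    rw [T_eq, ← smul_eq_mul, ← Finset.sum_const] at h7
    have h8 := (Finset.sum_eq_sum_iff_of_le
      (fun v hv => D.hnm j hj v (D.mem_seen.1 hv).1)).1 h7
    exact h8 v (D.mem_seen.2 ⟨hv, hnv⟩)
  by_cases hdiv : ∃ e, D.Dd i = e * D.m i
  · obtain ⟨e, he⟩ := hdiv
    have he1 : 1 ≤ e := by
      by_contra hcon
      have : e = 0 := by omega
      rw [this, Nat.zero_mul] at he
      omega
    refine D.case2b he1 ?_ ?_ hi he
    · intro z hz
      have h2 := hmax z hz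
      rw [he] at h2
      have h3 : D.Dd z * D.m i ≤ (e * D.m z) * D.m i := by
        rw [show e * D.m z * D.m i = e * D.m i * D.m z by ring]
        exact h2
      exact Nat.le_of_mul_le_mul_right h3 (by omega)
    · intro z hz hDz
      have hmaxz : ∀ y ∈ D.K, D.Dd y * D.m z ≤ D.Dd z * D.m y := by
        intro y hy
        have h2 := hmax y hy
        rw [he] at h2
        have h3 : D.Dd y * D.m i ≤ (e * D.m y) * D.m i := by
          rw [show e * D.m y * D.m i = e * D.m i * D.m y by ring]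
          exact h2
        have h4 := Nat.le_of_mul_le_mul_right h3 (by omega)
        rw [hDz, show e * D.m z * D.m y = e * D.m y * D.m z by ring]
        exact Nat.mul_le_mul_right _ h4
      rcases hft z hz hmaxz with h | ⟨h2, h3, h4, h5⟩
      · exact Or.inl h
      · refine Or.inr ⟨h2, h3, ?_, h5⟩
        rw [hDz] at h4
        exact (Nat.eq_of_mul_eq_mul_right (by omega) h4).symm
  · rcases hft i hi hmax with h | ⟨_, _, h4, _⟩
    · refine D.case2a hi h hmax h1 ?_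
      by_contra hcon
      have hm1 : D.m i = 1 := by omega
      exact hdiv ⟨D.Dd i, by rw [hm1, Nat.mul_one]⟩
    · exact absurd ⟨_, h4⟩ hdiv

end Pool.Agent.H88C.Dat
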