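import Mathlib

/-!
Abstract counting on a longest cycle (MP_12c032, all orders): data and label lemma.
-/

set_option autoImplicit false

namespace Pool.Agent.H88C

universe u v

/-- A cycle `C` with back step `b`, components `K` with masses `m`, hubs `A`, strong hubs `str`,
members seen `n`, links `Lk`, optional vertices `W`. -/
structure Dat (V : Type u) (κ : Type v) [DecidableEq V] [DecidableEq κ] where
  C : Finset V
  b : V → V
  K : Finset κ
  W : Finset V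
  Adj : V → V → Prop
  A : κ → V → Prop
  str : κ → V → Prop
  n : κ → V → ℕ
  m : κ → ℕ
  Lk : κ → ℕ → V → V → Prop
  hbC : ∀ v ∈ C, b v ∈ C
  hinj : ∀ v ∈ C, ∀ w ∈ C, b v = b w → v = w
  hret : ∀ v ∈ C, ∀ i, 1 ≤ i → i < C.card → b^[i] v ≠ v
  htr : ∀ v ∈ C, ∀ w ∈ C, ∃ i < C.card, b^[i] v = w
  hN : K.card + 2 + (W ∩ C).card < C.card
  hsymm : ∀ y l s t, Lk y l s t → Lk y l t s
  hmono : ∀ y l l' s t, l' ≤ l → Lk y l s t → Lk y l' s t
  R1 : ∀ y l s t, Lk y l s t → s ∈ C → t ∈ C → s ≠ t → ∀ i ≤ l, b^[i] s ≠ t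
  R3 : ∀ y l s t, Lk y l s t → s ∈ C → t ∈ C → s ≠ t → ∀ a c, a + c < l →
    ¬ Adj (b^[a + 1] s) (b^[c + 1] t)
  R2 : ∀ y ∈ K, ∀ y' ∈ K, y ≠ y' → ∀ l l' s t a c, Lk y l s t → s ∈ C → t ∈ C → s ≠ t →
    1 ≤ a → a ≤ l → 1 ≤ c → c ≤ l → Lk y' l' (b^[a] s) (b^[c] t) → l + l' + 2 ≤ a + c
  hm : ∀ y ∈ K, 1 ≤ m y
  hnm : ∀ y ∈ K, ∀ v ∈ C, n y v ≤ m y
  hns : ∀ y ∈ K, ∀ v ∈ C, 1 ≤ n y v → str y v
  hsA : ∀ y ∈ K, ∀ v ∈ C, str y v → A y v
  htwo : ∀ y ∈ K, ∃ v ∈ C, ∃ w ∈ C, v ≠ w ∧ A y v ∧ A y w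
  L0 : ∀ y ∈ K, ∀ v ∈ C, ∀ w ∈ C, v ≠ w → str y v → A y w →
    Lk y (K.card + 2 + (W ∩ C).card) v w
  F1 : ∀ y ∈ K, ∀ v ∈ C, ∀ w ∈ C, v ≠ w → 1 ≤ n y v → A y w →
    Lk y (∑ z ∈ K.erase y, m z + 1 + n y v + (W ∩ C).card) v w
  F2 : ∀ y ∈ K, ∀ v ∈ C, ∀ w ∈ C, v ≠ w → 2 ≤ n y v → 1 ≤ n y w →
    Lk y (2 * ∑ z ∈ K.erase y, m z + n y v + n y w + (W ∩ C).card) v w

namespace Dat

variable {V : Type u} {κ : Type v} [DecidableEq V] [DecidableEq κ] (D : Dat V κ)

/-- number of optional vertices on the cycle -/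
def sig : ℕ := (D.W ∩ D.C).card

/-- blocked vertices -/
def Bl (v : V) : Prop := v ∈ D.W ∨ ∃ y ∈ D.K, D.str y v

open Classical in
/-- number of non-neighbours on the cycle -/
noncomputable def nn (p : V) : ℕ := (D.C.filter (fun z => z ≠ p ∧ ¬ D.Adj p z)).card

theorem iter_mem {v : V} (hv : v ∈ D.C) (i : ℕ) : D.b^[i] v ∈ D.C := by
  induction i with
  | zero => exact hv
  | succ i ih =>
    rw [Function.iterate_succ_apply']
    exact D.hbC _ ih

theorem iter_inj {v w : V} (hv : v ∈ D.C) (hw : w ∈ D.C) (i : ℕ)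
    (h : D.b^[i] v = D.b^[i] w) : v = w := by
  induction i with
  | zero => exact h
  | succ i ih =>
    rw [Function.iterate_succ_apply', Function.iterate_succ_apply'] at h
    exact ih (D.hinj _ (D.iter_mem hv i) _ (D.iter_mem hw i) h)

/-- cancel common steps -/
theorem iter_cancel {v w : V} (hv : v ∈ D.C) (hw : w ∈ D.C) {i j : ℕ} (hij : i ≤ j)
    (h : D.b^[i] v = D.b^[j] w) : v = D.b^[j - i] w := by
  have e1 : j = i + (j - i) := by omega
  have e : D.b^[j] w = D.b^[i] (D.b^[j - i] w) := by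
    rw [← Function.iterate_add_apply, ← e1]
  rw [e] at h
  exact D.iter_inj hv (D.iter_mem hw _) i h

theorem iter_self_ne {v : V} (hv : v ∈ D.C) {i j : ℕ} (hij : i < j) (hj : j < D.C.card) :
    D.b^[i] v ≠ D.b^[j] v := by
  intro h
  exact D.hret v hv (j - i) (by omega) (by omega) (D.iter_cancel hv hv hij.le h).symm

/-- windows in front of hubs -/
theorem windows {p : V} (Y : Finset V) (hY : Y ⊆ D.C) (w : V → ℕ)
    (h1 : ∀ y ∈ Y, ∀ j, 1 ≤ j → j ≤ w y → D.b^[j] y ≠ p ∧ ¬ D.Adj p (D.b^[j] y))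
    (h2 : ∀ y ∈ Y, ∀ y' ∈ Y, y ≠ y' → ∀ i < w y', D.b^[i] y' ≠ y)
    (h3 : ∀ y ∈ Y, w y < D.C.card) : ∑ y ∈ Y, w y ≤ D.nn p := by
  classical
  have hc : (Y.biUnion (fun y => (Finset.Icc 1 (w y)).image (fun j => D.b^[j] y))).card =
      ∑ y ∈ Y, w y := by
    rw [Finset.card_biUnion]
    · refine Finset.sum_congr rfl (fun y hy => ?_)
      rw [Finset.card_image_of_injOn, Nat.card_Icc]
      · omega
      · intro i hi j hj hij
        rw [Finset.mem_coe, Finset.mem_Icc] at hi hj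
        rcases lt_trichotomy i j with h | h | h
        · exact absurd hij (D.iter_self_ne (hY hy) h (by have := h3 y hy; omega))
        · exact h
        · exact absurd hij.symm (D.iter_self_ne (hY hy) h (by have := h3 y hy; omega))
    · intro y hy y' hy' hne
      rw [Function.onFun, Finset.disjoint_left]
      intro z hz hz'
      obtain ⟨j, hj, rfl⟩ := Finset.mem_image.1 hz
      obtain ⟨j', hj', hjj⟩ := Finset.mem_image.1 hz'
      rw [Finset.mem_Icc] at hj hj'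
      rcases le_total j j' with h | h
      · exact h2 y hy y' hy' hne (j' - j) (by omega)
          (D.iter_cancel (hY hy) (hY hy') h hjj.symm).symm
      · exact h2 y' hy' y hy (Ne.symm hne) (j - j') (by omega)
          (D.iter_cancel (hY hy') (hY hy) h hjj).symm
  rw [← hc, nn]
  refine Finset.card_le_card ?_
  intro z hz
  obtain ⟨y, hy, hz⟩ := Finset.mem_biUnion.1 hz
  obtain ⟨j, hj, rfl⟩ := Finset.mem_image.1 hz
  rw [Finset.mem_Icc] at hj
  exact Finset.mem_filter.2 ⟨D.iter_mem (hY hy) j, h1 y hy j hj.1 hj.2⟩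

/-- labels of run vertices are distinct -/
theorem labels_card {y0 : κ} (hy0 : y0 ∈ D.K) (S : Finset V) (hS : S ⊆ D.C)
    (hA : ∀ s ∈ S, D.A y0 s)
    (hl : ∀ s ∈ S, ∀ t ∈ S, s ≠ t → D.Lk y0 (D.K.card + 2 + D.sig) s t)
    (P : Finset (V × ℕ)) (hP : ∀ q ∈ P, q.1 ∈ S ∧ 1 ≤ q.2 ∧ q.2 ≤ D.K.card + D.sig ∧
      D.Bl (D.b^[q.2] q.1)) (B : Finset κ)
    (hB : ∀ q ∈ P, D.b^[q.2] q.1 ∉ D.W → ∀ y ∈ D.K, D.str y (D.b^[q.2] q.1) → y ∈ B) :
    P.card ≤ (B.erase y0).card + D.sig := by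
  classical
  have hN := D.hN
  have hsig : D.sig = (D.W ∩ D.C).card := rfl
  -- labels
  have hex : ∀ q : V × ℕ, ∃ l : κ ⊕ V, q ∈ P →
      (D.b^[q.2] q.1 ∈ D.W ∧ l = Sum.inr (D.b^[q.2] q.1)) ∨
      (D.b^[q.2] q.1 ∉ D.W ∧ ∃ y ∈ D.K, D.str y (D.b^[q.2] q.1) ∧ l = Sum.inl y) := by
    intro q
    by_cases hq : q ∈ P
    · by_cases hw : D.b^[q.2] q.1 ∈ D.W
      · exact ⟨Sum.inr (D.b^[q.2] q.1), fun _ => Or.inl ⟨hw, rfl⟩⟩
      · rcases (hP q hq).2.2.2 with h | ⟨y, hy, hs⟩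
        · exact absurd h hw
        · exact ⟨Sum.inl y, fun _ => Or.inr ⟨hw, y, hy, hs, rfl⟩⟩
    · exact ⟨Sum.inr q.1, fun h => absurd h hq⟩
  choose lab hlab using hex
  have hmaps : ∀ q ∈ P, lab q ∈ (B.erase y0).disjSum (D.W ∩ D.C) := by
    intro q hq
    have h0 := hP q hq
    have hmem : D.b^[q.2] q.1 ∈ D.C := D.iter_mem (hS h0.1) _
    rcases hlab q hq with ⟨hw, h⟩ | ⟨hw, y, hy, hs, h⟩
    · rw [h, Finset.inr_mem_disjSum]
      exact Finset.mem_inter.2 ⟨hw, hmem⟩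
    · rw [h, Finset.inl_mem_disjSum, Finset.mem_erase]
      refine ⟨?_, hB q hq hw y hy hs⟩
      rintro rfl
      have hne : D.b^[q.2] q.1 ≠ q.1 := D.hret _ (hS h0.1) _ h0.2.1 (by omega)
      have h1 := D.hsymm _ _ _ _ (D.L0 y hy _ hmem _ (hS h0.1) hne hs (hA _ h0.1))
      exact D.R1 _ _ _ _ h1 (hS h0.1) hmem hne.symm q.2 (by omega) rfl
  have hinj : Set.InjOn lab (P : Set (V × ℕ)) := by
    intro q hq q' hq' h
    rw [Finset.mem_coe] at hq hq'
    have h0 := hP q hq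
    have h0' := hP q' hq'
    have hmem : D.b^[q.2] q.1 ∈ D.C := D.iter_mem (hS h0.1) _
    have hmem' : D.b^[q'.2] q'.1 ∈ D.C := D.iter_mem (hS h0'.1) _
    by_contra hqq
    -- the two vertices are different
    have hvne : D.b^[q.2] q.1 ≠ D.b^[q'.2] q'.1 := by
      by_cases hs : q.1 = q'.1
      · have hi : q.2 ≠ q'.2 := fun hi => hqq (Prod.ext hs hi)
        rw [hs]
        rcases lt_or_gt_of_ne hi with h' | h'
        · exact D.iter_self_ne (hS h0'.1) h' (by omega)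
        · exact (D.iter_self_ne (hS h0'.1) h' (by omega)).symm
      · intro hv
        have hL := hl _ h0.1 _ h0'.1 hs
        rcases le_total q.2 q'.2 with h' | h'
        · exact D.R1 _ _ _ _ (D.hsymm _ _ _ _ hL) (hS h0'.1) (hS h0.1) (Ne.symm hs)
            (q'.2 - q.2) (by omega) (D.iter_cancel (hS h0.1) (hS h0'.1) h' hv).symm
        · exact D.R1 _ _ _ _ hL (hS h0.1) (hS h0'.1) hs
            (q.2 - q'.2) (by omega) (D.iter_cancel (hS h0'.1) (hS h0.1) h' hv.symm).symm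
    rcases hlab q hq with ⟨hw, h1⟩ | ⟨hw, y, hy, hs, h1⟩ <;>
      rcases hlab q' hq' with ⟨hw', h1'⟩ | ⟨hw', y', hy', hs', h1'⟩
    · rw [h1, h1'] at h
      exact hvne (Sum.inr_injective h)
    · rw [h1, h1'] at h
      exact absurd h (by simp)
    · rw [h1, h1'] at h
      exact absurd h (by simp)
    · rw [h1, h1'] at h
      have hyy : y = y' := Sum.inl_injective h
      subst hyy
      have hL := D.L0 y hy _ hmem _ hmem' hvne hs (D.hsA y hy _ hmem' hs')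
      by_cases hss : q.1 = q'.1
      · have hi : q.2 ≠ q'.2 := fun hi => hqq (Prod.ext hss hi)
        rcases lt_or_gt_of_ne hi with h' | h'
        · refine D.R1 _ _ _ _ hL hmem hmem' hvne (q'.2 - q.2) (by omega) ?_
          rw [← hss, ← Function.iterate_add_apply]
          congr 2
          omega
        · refine D.R1 _ _ _ _ (D.hsymm _ _ _ _ hL) hmem' hmem hvne.symm (q.2 - q'.2)
            (by omega) ?_
          rw [hss, ← Function.iterate_add_apply]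
          congr 2
          omega
      · have hyy0 : y0 ≠ y := by
          have h3 := hmaps q hq
          rw [h1, Finset.inl_mem_disjSum, Finset.mem_erase] at h3
          exact Ne.symm h3.1
        have h4 := D.R2 y0 hy0 y hy hyy0 _ _ q.1 q'.1 q.2 q'.2 (hl _ h0.1 _ h0'.1 hss)
          (hS h0.1) (hS h0'.1) hss h0.2.1 (by omega) h0'.2.1 (by omega) hL
        omega
  calc P.card ≤ ((B.erase y0).disjSum (D.W ∩ D.C)).card :=
        Finset.card_le_card_of_injOn lab hmaps hinj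
    _ = (B.erase y0).card + D.sig := by rw [Finset.card_disjSum]; rfl

end Dat

end Pool.Agent.H88C
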