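import Pool.Agent.H88C.Thin

/-!
The count (helper42's h42_count.md, repaired): an unblocked vertex with enough non-neighbours.
-/

set_option autoImplicit false

namespace Pool.Agent.H88C.Dat

universe u v

variable {V : Type u} {κ : Type v} [DecidableEq V] [DecidableEq κ] (D : Dat V κ)

/-- CASE 1: a component with a hub seen by two members -/
theorem case1 {i : κ} (hi : i ∈ D.K) {w : V} (hw : w ∈ D.C) (hn : 2 ≤ D.n i w)
    (hlt : ∀ z ∈ D.K, D.Dd z < (D.seen i).card * D.m z) : D.Goal := by
  classical
  have hsA : D.A i w := D.hsA i hi w hw (D.hns i hi w hw (by omega))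
  obtain ⟨g, hg, hbl, hun⟩ := D.exists_run hi hw hsA
  have hKM := D.card_le_M hi
  have hK1 : 1 ≤ D.K.card := Finset.card_pos.2 ⟨i, hi⟩
  have hp : D.b^[g + 1] w ∈ D.C := D.iter_mem hw _
  -- `p` is no hub of `i`
  have hAp : ¬ D.A i (D.b^[g + 1] w) := by
    intro hA
    have hN := D.hN
    have hs : D.sig = (D.W ∩ D.C).card := rfl
    have hne : w ≠ D.b^[g + 1] w := (D.hret w hw (g + 1) (by omega) (by omega)).symm
    have h := D.F1' hi hw hp hne (by omega) hA
    exact D.R1 _ _ _ _ h hw hp hne (g + 1) (by omega) rfl
  -- the windows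
  have hcount : D.T i + (D.seen i).card * D.M i + 1 ≤ D.nn (D.b^[g + 1] w) + D.K.card := by
    have hws : w ∈ D.seen i := D.mem_seen.2 ⟨hw, by omega⟩
    by_cases h1 : (D.seen i).card = 1
    · -- one seen hub
      have hs1 : D.seen i = {w} := by
        obtain ⟨a, ha⟩ := Finset.card_eq_one.1 h1
        rw [ha] at hws ⊢
        rw [Finset.mem_singleton.1 hws]
      have hT : D.T i = D.n i w := by rw [T_eq, hs1, Finset.sum_singleton]
      obtain ⟨Y, hY, hrY, hYS, hc, hor, _⟩ := D.others hi hw hsA
      have hu : D.u i = 1 := by
        have := D.u_le i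
        by_contra hcon
        have := D.two_of_u0 hi (by omega)
        omega
      have hYc : Y.card = 1 := by omega
      have h2 := D.uniform (y := i) hw g (D.M i + 1 + D.n i w + D.sig) (by omega) Y hY hrY
        (by
          intro z hz
          exact D.F1' hi hw (hY hz) (fun h => hrY (h ▸ hz)) (by omega) (D.A_of_S hi (hYS hz)))
        (by
          intro z hz z' hz' hne
          obtain ⟨a, ha⟩ := Finset.card_eq_one.1 hYc
          rw [ha, Finset.mem_singleton] at hz hz'
          exact absurd (hz.trans hz'.symm) hne)
      rw [hYc, one_mul] at h2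
      rw [h1, hT, one_mul]
      omega
    · have h2 : 2 ≤ (D.seen i).card := by
        have : 1 ≤ (D.seen i).card := Finset.card_pos.2 ⟨w, hws⟩
        omega
      -- first seen hub after `w`
      have hdex : ∀ v, ∃ j, v ∈ D.C → (D.b^[j] v = w ∧ ∀ j' < j, D.b^[j'] v ≠ w) := by
        intro v
        by_cases hv : v ∈ D.C
        · obtain ⟨j, _, hj⟩ := D.htr v hv w hw
          have hex : ∃ j, D.b^[j] v = w := ⟨j, hj⟩
          exact ⟨Nat.find hex, fun _ => ⟨Nat.find_spec hex, fun j' hj' => Nat.find_min hex hj'⟩⟩
        · exact ⟨0, fun h => absurd h hv⟩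
      choose d hd using hdex
      have hne : ((D.seen i).erase w).Nonempty := by
        rw [← Finset.card_pos, Finset.card_erase_of_mem hws]
        omega
      obtain ⟨y1, hy1, hmin⟩ := Finset.exists_min_image _ d hne
      have hy1s := Finset.mem_of_mem_erase hy1
      have hy1C := D.seen_sub i hy1s
      have hy1n := (D.mem_seen.1 hy1s).2
      have hy1w : y1 ≠ w := Finset.ne_of_mem_erase hy1
      set l : V → ℕ := fun y => if y = y1 then 2 * D.M i + D.n i w + D.n i y1 + D.sig - g
        else D.M i + 1 + D.n i y with hl
      have hgl : g ≤ D.M i + D.sig := by omega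
      have hsub : (D.seen i).erase w ⊆ D.C := (Finset.erase_subset _ _).trans (D.seen_sub i)
      have hlink : ∀ z ∈ (D.seen i).erase w,
          D.Lk i (2 * D.M i + D.n i w + D.n i z + D.sig) w z := by
        intro z hz
        exact D.F2' hi hw (hsub hz) (Finset.ne_of_mem_erase hz).symm hn
          (D.mem_seen.1 (Finset.mem_of_mem_erase hz)).2
      have hwin := D.win_from (y := i) hw g ((D.seen i).erase w) hsub
        (Finset.notMem_erase _ _) l (by
          intro z hz
          refine D.hmono _ _ _ _ _ ?_ (hlink z hz)
          rw [hl]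
          dsimp only
          split_ifs with h
          · rw [h]; omega
          · omega) (by
          intro z hz z' hz' hne i' hi'
          rw [hl] at hi'
          dsimp only at hi'
          split_ifs at hi' with h
          · -- the long window
            subst h
            intro heq
            have hdz' := hd z' (hsub hz')
            have hbig : 2 * D.M i + D.n i w + D.n i z' + D.sig < d z' := by
              by_contra hcon
              exact D.R1 _ _ _ _ (D.hsymm _ _ _ _ (hlink z' hz')) (hsub hz') hw hy1w (d z')
                (by omega) hdz'.1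
            have hdz := hd z (hsub hz)
            have h3 : D.b^[d z' - i'] z = w := by
              rw [← heq, ← Function.iterate_add_apply]
              rw [show d z' - i' + i' = d z' by omega]
              exact hdz'.1
            have h4 : d z ≤ d z' - i' := by
              by_contra hcon
              exact hdz.2 _ (by omega) h3
            have h5 := hmin z hz
            have hi0 : i' = 0 := by omega
            subst hi0
            exact hne heq.symm
          · have hzn := (D.mem_seen.1 (Finset.mem_of_mem_erase hz')).2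
            exact D.R1 _ _ _ _ (D.F1' hi (hsub hz') (hsub hz) hne.symm hzn
              (D.A_of_seen hi (Finset.mem_of_mem_erase hz))) (hsub hz') (hsub hz) hne.symm i'
              (by omega))
      have e1 : ∑ z ∈ (D.seen i).erase w, l z =
          l y1 + ∑ z ∈ ((D.seen i).erase w).erase y1, l z := (Finset.add_sum_erase _ _ hy1).symm
      have e2 : ∑ z ∈ ((D.seen i).erase w).erase y1, l z =
          ∑ z ∈ ((D.seen i).erase w).erase y1, (D.M i + 1 + D.n i z) := by
        refine Finset.sum_congr rfl (fun z hz => ?_)
        rw [hl]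
        dsimp only
        rw [if_neg (Finset.ne_of_mem_erase hz)]
      have e3 : ∑ z ∈ ((D.seen i).erase w).erase y1, (D.M i + 1 + D.n i z) =
          ((D.seen i).card - 2) * (D.M i + 1) +
            ∑ z ∈ ((D.seen i).erase w).erase y1, D.n i z := by
        rw [Finset.sum_add_distrib, Finset.sum_const, smul_eq_mul,
          Finset.card_erase_of_mem hy1, Finset.card_erase_of_mem hws]
        congr 2
      have e4 : D.T i = D.n i w + (D.n i y1 + ∑ z ∈ ((D.seen i).erase w).erase y1, D.n i z) := by
        rw [T_eq, ← Finset.add_sum_erase _ _ hws, ← Finset.add_sum_erase _ _ hy1]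
      have e5 : l y1 = 2 * D.M i + D.n i w + D.n i y1 + D.sig - g := by
        rw [hl]
        dsimp only
        rw [if_pos rfl]
      rw [e1, e2, e3, e5] at hwin
      obtain ⟨c, hc⟩ : ∃ c, (D.seen i).card = c + 2 := ⟨(D.seen i).card - 2, by omega⟩
      rw [hc] at hwin ⊢
      rw [Nat.add_sub_cancel] at hwin
      have e6 : c * (D.M i + 1) = c * D.M i + c := by ring
      have e7 : (c + 2) * D.M i = c * D.M i + 2 * D.M i := by ring
      rw [e6] at hwin
      rw [e4, e7]
      omega
  refine ⟨D.b^[g + 1] w, hp, fun h => hun (Or.inl h), fun y hy hs => hun (Or.inr ⟨y, hy, hs⟩), ?_⟩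
  intro a ha ha0
  have hai : a i = 0 := ha0 i hi hAp
  rw [← Finset.add_sum_erase _ _ hi, hai]
  have h3 : ∑ z ∈ D.K.erase i, (D.T z + a z) ≤ ∑ z ∈ D.K.erase i, (D.seen i).card * D.m z := by
    refine Finset.sum_le_sum (fun z hz => ?_)
    have hzK := Finset.mem_of_mem_erase hz
    have h4 := D.a_le_u hzK hp hun (ha z hzK) (ha0 z hzK)
    have h5 := D.Dd_succ hzK
    have h6 := hlt z hzK
    omega
  rw [← Finset.mul_sum] at h3
  have h7 : D.M i = ∑ z ∈ D.K.erase i, D.m z := rfl
  rw [← h7] at h3
  omega

end Pool.Agent.H88C.Dat
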