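import Pool.Agent.H88C.Main
import Pool.Agent.TFA.Idx

/-!
The count for a longest cycle of a graph: the geometric fields of `Dat`.
-/

set_option autoImplicit false

namespace Pool.Agent.H88C

open List Pool.Agent.TF82 Pool.Agent.TFC Pool.Agent.TFB Pool.Agent.TFN Pool.Agent.TFG

universe u

variable {V : Type u} [DecidableEq V]

theorem Link.mono' [Fintype V] {G : SimpleGraph V} {F : List (List V)} {y s t : V} {l l' : ℕ}
    (h : l' ≤ l) (hl : Link G F y l s t) : Link G F y l' s t := by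
  obtain ⟨Q, x1, x2, h1, h2, h3, h4, h5, h6⟩ := hl
  exact ⟨Q, x1, x2, h1, h2, h3, h.trans h4, h5, h6⟩

theorem link_lt [Fintype V] {G : SimpleGraph V} {F : List (List V)}
    (hM : IsMax G F.length F) (hF1 : F.length = 1) {s t y : V} (hs : s ∈ F.flatten)
    (ht : t ∈ F.flatten) (hst : s ≠ t) {n : ℕ} (hl : Link G F y n s t) :
    n < F.flatten.length := by
  obtain ⟨i, hi, h⟩ := TFA.exists_back hM.fam hF1 hs ht
  by_contra hcon
  exact link_far hM hs hl.symm hst i (by omega) h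

theorem noRet_one {G : SimpleGraph V} {F : List (List V)} (hF : Fam G F) (hF1 : F.length = 1)
    {n : ℕ} (hn : n < F.flatten.length) : NoRet F n :=
  fun _ hx i hi hin => iter_ne_one hF hF1 hx i hi (by omega)

/-- two components -/
theorem link_two [Fintype V] {G : SimpleGraph V} {F : List (List V)}
    (hM : IsMax G F.length F) (hF1 : F.length = 1) {s t y y' : V}
    (hd : Disjoint (comp G F y) (comp G F y')) (hs : s ∈ F.flatten) (ht : t ∈ F.flatten)
    (hst : s ≠ t) {l l' a c : ℕ} (hl : Link G F y l s t) (ha : 1 ≤ a) (hal : a ≤ l)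
    (hc : 1 ≤ c) (hcl : c ≤ l) (hl' : Link G F y' l' ((prv F)^[a] s) ((prv F)^[c] t)) :
    l + l' + 2 ≤ a + c := by
  have f1 := link_far hM hs hl.symm hst
  have f2 := link_far hM ht hl hst.symm
  have hR := noRet_one hM.fam hF1 (link_lt hM hF1 hs ht hst hl)
  obtain ⟨Q, x1, x2, h1, h2, h3, h4, h5, h6⟩ := hl
  obtain ⟨Q', x1', x2', h1', h2', h3', h4', h5', h6'⟩ := hl'
  obtain ⟨a, rfl⟩ : ∃ a', a = a' + 1 := ⟨a - 1, by omega⟩
  obtain ⟨c, rfl⟩ : ∃ c', c = c' + 1 := ⟨c - 1, by omega⟩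
  have hn : (Q' ++ Q).Nodup := by
    rw [List.nodup_append]
    refine ⟨h2', h2, ?_⟩
    rintro z hz w hw rfl
    exact Finset.disjoint_left.1 hd (h3 z hw) (h3' z hz)
  have := route2 hM hs ht hst (a := a) (b := c) (X := Q') (Y := Q)
    (fun i hi hia => ⟨hR s hs i hi (by omega), f1 i (by omega)⟩)
    (fun i hi hib => ⟨hR t ht i hi (by omega), f2 i (by omega)⟩)
    (chain_ends h1'.ch h1'.hd h1'.lt h5' h6'.symm)
    (chain_ends h1.ch h1.hd h1.lt h5 h6.symm) hn
    (fun x hx => by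
      rcases List.mem_append.1 hx with hx | hx
      · exact mem_unc.1 (mem_comp.1 (h3' x hx)).1
      · exact mem_unc.1 (mem_comp.1 (h3 x hx)).1)
  omega

/-- THE COUNT for a longest cycle -/
theorem count_graph [Fintype V] {G : SimpleGraph V} [DecidableRel G.Adj] {F : List (List V)}
    (hM : IsMax G F.length F) (hF1 : F.length = 1) (R W : Finset V) (hR : R.Nonempty)
    (hdis : ∀ y ∈ R, ∀ y' ∈ R, y ≠ y' → Disjoint (comp G F y) (comp G F y'))
    (A str : V → V → Prop) (n : V → V → ℕ) (m : V → ℕ)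
    (hN : R.card + 2 + (W ∩ F.flatten.toFinset).card < F.flatten.length)
    (hm : ∀ y ∈ R, 1 ≤ m y)
    (hnm : ∀ y ∈ R, ∀ v ∈ F.flatten, n y v ≤ m y)
    (hns : ∀ y ∈ R, ∀ v ∈ F.flatten, 1 ≤ n y v → str y v)
    (hsA : ∀ y ∈ R, ∀ v ∈ F.flatten, str y v → A y v)
    (htwo : ∀ y ∈ R, ∃ v ∈ F.flatten, ∃ w ∈ F.flatten, v ≠ w ∧ A y v ∧ A y w)
    (L0 : ∀ y ∈ R, ∀ v ∈ F.flatten, ∀ w ∈ F.flatten, v ≠ w → str y v → A y w →
      Link G F y (R.card + 2 + (W ∩ F.flatten.toFinset).card) v w)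
    (F1 : ∀ y ∈ R, ∀ v ∈ F.flatten, ∀ w ∈ F.flatten, v ≠ w → 1 ≤ n y v → A y w →
      Link G F y (∑ z ∈ R.erase y, m z + 1 + n y v + (W ∩ F.flatten.toFinset).card) v w)
    (F2 : ∀ y ∈ R, ∀ v ∈ F.flatten, ∀ w ∈ F.flatten, v ≠ w → 2 ≤ n y v → 1 ≤ n y w →
      Link G F y (2 * ∑ z ∈ R.erase y, m z + n y v + n y w +
        (W ∩ F.flatten.toFinset).card) v w) :
    ∃ p ∈ F.flatten, p ∉ W ∧ (∀ y ∈ R, ¬ str y p) ∧
      ∀ a : V → ℕ, (∀ y ∈ R, a y ≤ 1) → (∀ y ∈ R, ¬ A y p → a y = 0) →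
        ∑ y ∈ R, (∑ v ∈ F.flatten.toFinset, n y v + a y) ≤
          (F.flatten.toFinset.filter (fun z => z ≠ p ∧ ¬ G.Adj p z)).card + R.card := by
  classical
  have hC : ∀ {v : V}, v ∈ F.flatten.toFinset ↔ v ∈ F.flatten := List.mem_toFinset
  have hcard : F.flatten.toFinset.card = F.flatten.length :=
    List.toFinset_card_of_nodup hM.fam.nod
  let D : Dat V V :=
    { C := F.flatten.toFinset
      b := prv F
      K := R
      W := W
      Adj := G.Adj
      A := A
      str := str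
      n := n
      m := m
      Lk := fun y l s t => Link G F y l s t
      hbC := fun v hv => hC.2 (prv_mem hM.fam (hC.1 hv))
      hinj := fun v hv w hw h => prv_inj hM.fam (hC.1 hv) (hC.1 hw) h
      hret := fun v hv i hi hi' => iter_ne_one hM.fam hF1 (hC.1 hv) i hi (by omega)
      htr := fun v hv w hw => by
        rw [hcard]
        exact TFA.exists_back hM.fam hF1 (hC.1 hv) (hC.1 hw)
      hN := by rw [hcard]; exact hN
      hsymm := fun y l s t h => h.symm
      hmono := fun y l l' s t h hl => Link.mono' h hl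
      R1 := fun y l s t hl hs ht hst i hi => link_far hM (hC.1 hs) hl.symm hst i hi
      R3 := fun y l s t hl hs ht hst a c hac =>
        link_nonadj hM (hC.1 hs) (hC.1 ht) hst hl
          (noRet_one hM.fam hF1 (link_lt hM hF1 (hC.1 hs) (hC.1 ht) hst hl)) hac
      R2 := fun y hy y' hy' hne l l' s t a c hl hs ht hst ha hal hc hcl hl' =>
        link_two hM hF1 (hdis y hy y' hy' hne) (hC.1 hs) (hC.1 ht) hst hl ha hal hc hcl hl'
      hm := hm
      hnm := fun y hy v hv => hnm y hy v (hC.1 hv)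
      hns := fun y hy v hv => hns y hy v (hC.1 hv)
      hsA := fun y hy v hv => hsA y hy v (hC.1 hv)
      htwo := fun y hy => by
        obtain ⟨v, hv, w, hw, h⟩ := htwo y hy
        exact ⟨v, hC.2 hv, w, hC.2 hw, h⟩
      L0 := fun y hy v hv w hw => L0 y hy v (hC.1 hv) w (hC.1 hw)
      F1 := fun y hy v hv w hw => F1 y hy v (hC.1 hv) w (hC.1 hw)
      F2 := fun y hy v hv w hw => F2 y hy v (hC.1 hv) w (hC.1 hw) }
  obtain ⟨p, hp, hpW, hps, h⟩ := D.count hR
  refine ⟨p, hC.1 hp, hpW, hps, fun a ha ha0 => ?_⟩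
  have h1 := h a ha ha0
  refine h1.trans (Nat.add_le_add_right (le_of_eq ?_) _)
  unfold Dat.nn
  congr 1
  ext z
  simp only [Finset.mem_filter]
  exact Iff.rfl

end Pool.Agent.H88C
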