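import Pool.Agent.H88C.Base

/-!
Runs of blocked vertices, windows from a run vertex.
-/

set_option autoImplicit false

namespace Pool.Agent.H88C.Dat

universe u v

variable {V : Type u} {κ : Type v} [DecidableEq V] [DecidableEq κ] (D : Dat V κ)

/-- sum form of the label lemma -/
theorem runs_card {y0 : κ} (hy0 : y0 ∈ D.K) (S : Finset V) (hS : S ⊆ D.C)
    (hA : ∀ s ∈ S, D.A y0 s)
    (hl : ∀ s ∈ S, ∀ t ∈ S, s ≠ t → D.Lk y0 (D.K.card + 2 + D.sig) s t)
    (lo hi : V → ℕ) (hhi : ∀ s ∈ S, hi s ≤ D.K.card + D.sig)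
    (hbl : ∀ s ∈ S, ∀ i, lo s < i → i ≤ hi s → D.Bl (D.b^[i] s)) (B : Finset κ)
    (hB : ∀ s ∈ S, ∀ i, lo s < i → i ≤ hi s → D.b^[i] s ∉ D.W → ∀ y ∈ D.K,
      D.str y (D.b^[i] s) → y ∈ B) :
    ∑ s ∈ S, (hi s - lo s) ≤ (B.erase y0).card + D.sig := by
  classical
  set P : Finset (V × ℕ) := S.biUnion (fun s => (Finset.Ioc (lo s) (hi s)).image
    (fun j => (s, j))) with hP
  have hmem : ∀ q ∈ P, q.1 ∈ S ∧ lo q.1 < q.2 ∧ q.2 ≤ hi q.1 := by
    intro q hq
    obtain ⟨s, hs, hq⟩ := Finset.mem_biUnion.1 hq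
    obtain ⟨j, hj, rfl⟩ := Finset.mem_image.1 hq
    rw [Finset.mem_Ioc] at hj
    exact ⟨hs, hj.1, hj.2⟩
  have hc : P.card = ∑ s ∈ S, (hi s - lo s) := by
    rw [hP, Finset.card_biUnion]
    · refine Finset.sum_congr rfl (fun s _ => ?_)
      rw [Finset.card_image_of_injective, Nat.card_Ioc]
      intro i j h
      exact (Prod.ext_iff.1 h).2
    · intro s _ t _ hne
      rw [Function.onFun, Finset.disjoint_left]
      intro z hz hz'
      obtain ⟨j, _, rfl⟩ := Finset.mem_image.1 hz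
      obtain ⟨j', _, h⟩ := Finset.mem_image.1 hz'
      exact hne (Prod.ext_iff.1 h).1.symm
  rw [← hc]
  refine D.labels_card hy0 S hS hA hl P ?_ B ?_
  · intro q hq
    have h := hmem q hq
    exact ⟨h.1, by omega, h.2.2.trans (hhi _ h.1), hbl _ h.1 _ h.2.1 h.2.2⟩
  · intro q hq hw y hy hs
    have h := hmem q hq
    exact hB _ h.1 _ h.2.1 h.2.2 hw y hy hs

/-- runs end -/
theorem exists_run {y0 : κ} (hy0 : y0 ∈ D.K) {s : V} (hs : s ∈ D.C) (hA : D.A y0 s) :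
    ∃ g, g + 1 ≤ D.K.card + D.sig ∧ (∀ i, 0 < i → i ≤ g → D.Bl (D.b^[i] s)) ∧
      ¬ D.Bl (D.b^[g + 1] s) := by
  classical
  have hK : 1 ≤ D.K.card := Finset.card_pos.2 ⟨y0, hy0⟩
  have hex : ∃ i, 1 ≤ i ∧ i ≤ D.K.card + D.sig ∧ ¬ D.Bl (D.b^[i] s) := by
    by_contra hcon
    push Not at hcon
    have h := D.runs_card hy0 {s} (by simpa using hs) (by simpa using hA)
      (by
        intro a ha c hc hne
        rw [Finset.mem_singleton] at ha hc
        exact absurd (ha.trans hc.symm) hne) (fun _ => 0) (fun _ => D.K.card + D.sig)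
      (fun _ _ => le_rfl) (by
        intro a ha i hi hi'
        rw [Finset.mem_singleton] at ha
        rw [ha]
        exact hcon i hi hi') D.K (fun _ _ _ _ _ _ y hy _ => hy)
    rw [Finset.sum_singleton, Finset.card_erase_of_mem hy0] at h
    omega
  have h1 := Nat.find_spec hex
  refine ⟨Nat.find hex - 1, by omega, ?_, ?_⟩
  · intro i hi hi'
    by_contra hb
    have := Nat.find_min' hex ⟨hi, by omega, hb⟩
    omega
  · rw [Nat.sub_add_cancel h1.1]
    exact h1.2.2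

/-- windows seen from a vertex `p`, `x` vertices before a hub `r` -/
theorem win_from {y : κ} {r : V} (hr : r ∈ D.C) (x : ℕ) (Y : Finset V) (hY : Y ⊆ D.C)
    (hrY : r ∉ Y) (l : V → ℕ) (hL : ∀ z ∈ Y, D.Lk y (l z + x) r z)
    (hd : ∀ z ∈ Y, ∀ z' ∈ Y, z ≠ z' → ∀ i < l z', D.b^[i] z' ≠ z) :
    ∑ z ∈ Y, l z ≤ D.nn (D.b^[x + 1] r) := by
  have hne : ∀ z ∈ Y, r ≠ z := fun z hz h => hrY (h ▸ hz)
  refine D.windows Y hY l ?_ hd ?_
  · intro z hz j hj hj'
    have hLz := hL z hz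
    constructor
    · intro h
      rcases le_total j (x + 1) with h' | h'
      · exact D.R1 _ _ _ _ hLz hr (hY hz) (hne z hz) (x + 1 - j) (by omega)
          (D.iter_cancel (hY hz) hr h' h).symm
      · exact D.R1 _ _ _ _ (D.hsymm _ _ _ _ hLz) (hY hz) hr (hne z hz).symm (j - (x + 1))
          (by omega) (D.iter_cancel hr (hY hz) h' h.symm).symm
    · have h := D.R3 _ _ _ _ hLz hr (hY hz) (hne z hz) x (j - 1) (by omega)
      rwa [Nat.sub_add_cancel hj] at h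
  · intro z hz
    obtain ⟨i, hi, h⟩ := D.htr r hr z (hY hz)
    by_contra hcon
    exact D.R1 _ _ _ _ (hL z hz) hr (hY hz) (hne z hz) i (by omega) h

end Pool.Agent.H88C.Dat
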