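import Pool.Agent.H88C.Run

/-!
Seen hubs, demands, window counts for thin and full components.
-/

set_option autoImplicit false

namespace Pool.Agent.H88C.Dat

universe u v

variable {V : Type u} {κ : Type v} [DecidableEq V] [DecidableEq κ] (D : Dat V κ)

/-- edges from members of `y` to the cycle -/
def T (y : κ) : ℕ := ∑ v ∈ D.C, D.n y v

/-- seen hubs -/
def seen (y : κ) : Finset V := D.C.filter (fun v => 1 ≤ D.n y v)

/-- there is an unseen hub -/
def Un (y : κ) : Prop := ∃ v ∈ D.C, D.A y v ∧ D.n y v = 0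

open Classical in
noncomputable def u (y : κ) : ℕ := if D.Un y then 1 else 0

open Classical in
/-- seen hubs and one unseen hub -/
noncomputable def S (y : κ) : Finset V :=
  if h : D.Un y then insert h.choose (D.seen y) else D.seen y

/-- demand -/
noncomputable def Dd (y : κ) : ℕ := D.T y + D.u y - 1

/-- mass of the other components -/
def M (y : κ) : ℕ := ∑ z ∈ D.K.erase y, D.m z

theorem mem_seen {y : κ} {v : V} : v ∈ D.seen y ↔ v ∈ D.C ∧ 1 ≤ D.n y v := Finset.mem_filter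

theorem seen_sub (y : κ) : D.seen y ⊆ D.C := Finset.filter_subset _ _

theorem T_eq (y : κ) : D.T y = ∑ v ∈ D.seen y, D.n y v := by
  rw [T, seen, Finset.sum_filter]
  refine Finset.sum_congr rfl (fun v _ => ?_)
  split_ifs with h
  · rfl
  · omega

theorem S_sub (y : κ) : D.S y ⊆ D.C := by
  classical
  rw [S]
  split_ifs with h
  · exact Finset.insert_subset h.choose_spec.1 (D.seen_sub y)
  · exact D.seen_sub y

theorem card_S (y : κ) : (D.S y).card = (D.seen y).card + D.u y := by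
  classical
  rw [S, u]
  split_ifs with h
  · rw [Finset.card_insert_of_notMem]
    intro hm
    have := (D.mem_seen.1 hm).2
    have := h.choose_spec.2.2
    omega
  · rfl

theorem A_of_seen {y : κ} (hy : y ∈ D.K) {v : V} (hv : v ∈ D.seen y) : D.A y v := by
  have h := D.mem_seen.1 hv
  exact D.hsA y hy v h.1 (D.hns y hy v h.1 h.2)

theorem A_of_S {y : κ} (hy : y ∈ D.K) {v : V} (hv : v ∈ D.S y) : D.A y v := by
  classical
  rw [S] at hv
  split_ifs at hv with h
  · rcases Finset.mem_insert.1 hv with rfl | hv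
    · exact h.choose_spec.2.1
    · exact D.A_of_seen hy hv
  · exact D.A_of_seen hy hv

/-- at most one element of `S` is unseen -/
theorem S_pair {y : κ} {v w : V} (hv : v ∈ D.S y) (hw : w ∈ D.S y) (hne : v ≠ w) :
    1 ≤ D.n y v ∨ 1 ≤ D.n y w := by
  classical
  rw [S] at hv hw
  split_ifs at hv hw with h
  · rcases Finset.mem_insert.1 hv with rfl | hv
    · rcases Finset.mem_insert.1 hw with rfl | hw
      · exact absurd rfl hne
      · exact Or.inr (D.mem_seen.1 hw).2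
    · exact Or.inl (D.mem_seen.1 hv).2
  · exact Or.inl (D.mem_seen.1 hv).2

theorem seen_sub_S (y : κ) : D.seen y ⊆ D.S y := by
  classical
  rw [S]
  split_ifs with h
  · exact Finset.subset_insert _ _
  · exact Finset.Subset.refl _

theorem card_le_T (y : κ) : (D.seen y).card ≤ D.T y := by
  rw [T_eq, Finset.card_eq_sum_ones]
  exact Finset.sum_le_sum (fun v hv => (D.mem_seen.1 hv).2)

theorem T_le {y : κ} (hy : y ∈ D.K) : D.T y ≤ (D.seen y).card * D.m y := by
  rw [T_eq, ← smul_eq_mul]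
  exact Finset.sum_le_card_nsmul _ _ _ (fun v hv => D.hnm y hy v (D.mem_seen.1 hv).1)

theorem u_le (y : κ) : D.u y ≤ 1 := by
  classical
  rw [u]; split_ifs <;> omega

theorem two_of_u0 {y : κ} (hy : y ∈ D.K) (h : D.u y = 0) : 2 ≤ (D.seen y).card := by
  classical
  obtain ⟨v, hv, w, hw, hne, hAv, hAw⟩ := D.htwo y hy
  have hU : ¬ D.Un y := by
    intro hU
    rw [u, if_pos hU] at h
    omega
  have key : ∀ x ∈ D.C, D.A y x → x ∈ D.seen y := by
    intro x hx hA
    refine D.mem_seen.2 ⟨hx, ?_⟩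
    by_contra hcon
    exact hU ⟨x, hx, hA, by omega⟩
  have hsub : ({v, w} : Finset V) ⊆ D.seen y := by
    intro x hx
    rcases Finset.mem_insert.1 hx with rfl | hx
    · exact key _ hv hAv
    · rw [Finset.mem_singleton] at hx
      rw [hx]
      exact key _ hw hAw
  have := Finset.card_le_card hsub
  rwa [Finset.card_pair hne] at this

theorem Dd_succ {y : κ} (hy : y ∈ D.K) : D.Dd y + 1 = D.T y + D.u y := by
  have h1 := D.card_le_T y
  rw [Dd]
  by_cases hu : D.u y = 0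
  · have := D.two_of_u0 hy hu
    omega
  · omega

theorem M_add {y : κ} (hy : y ∈ D.K) : D.M y + D.m y = ∑ z ∈ D.K, D.m z := by
  rw [M, Finset.sum_erase_add _ _ hy]

theorem card_le_M {y : κ} (hy : y ∈ D.K) : D.K.card ≤ D.M y + 1 := by
  have h1 : (D.K.erase y).card ≤ D.M y := by
    rw [M, Finset.card_eq_sum_ones]
    exact Finset.sum_le_sum (fun z hz => D.hm z (Finset.mem_of_mem_erase hz))
  rw [Finset.card_erase_of_mem hy] at h1
  omega

theorem F1' {y : κ} (hy : y ∈ D.K) {v w : V} (hv : v ∈ D.C) (hw : w ∈ D.C) (hne : v ≠ w)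
    (hn : 1 ≤ D.n y v) (hA : D.A y w) : D.Lk y (D.M y + 1 + D.n y v + D.sig) v w :=
  D.F1 y hy v hv w hw hne hn hA

theorem F2' {y : κ} (hy : y ∈ D.K) {v w : V} (hv : v ∈ D.C) (hw : w ∈ D.C) (hne : v ≠ w)
    (hn : 2 ≤ D.n y v) (hn' : 1 ≤ D.n y w) :
    D.Lk y (2 * D.M y + D.n y v + D.n y w + D.sig) v w :=
  D.F2 y hy v hv w hw hne hn hn'

/-- set of other hubs linked with `r` -/
theorem others {y : κ} (hy : y ∈ D.K) {r : V} (hr : r ∈ D.C) (hA : D.A y r) :
    ∃ Y : Finset V, Y ⊆ D.C ∧ r ∉ Y ∧ Y ⊆ D.S y ∧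
      Y.card + 1 = (D.seen y).card + D.u y ∧ (∀ z ∈ Y, 1 ≤ D.n y r ∨ 1 ≤ D.n y z) ∧
      (1 ≤ D.n y r ∨ (D.u y = 1 ∧ Y = D.seen y)) := by
  classical
  by_cases hn : 1 ≤ D.n y r
  · have hrS : r ∈ D.S y := D.seen_sub_S y (D.mem_seen.2 ⟨hr, hn⟩)
    refine ⟨(D.S y).erase r, (Finset.erase_subset _ _).trans (D.S_sub y),
      Finset.notMem_erase _ _, Finset.erase_subset _ _, ?_, fun z _ => Or.inl hn, Or.inl hn⟩
    rw [Finset.card_erase_add_one hrS, card_S]
  · have hU : D.Un y := ⟨r, hr, hA, by omega⟩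
    have hu : D.u y = 1 := by rw [u, if_pos hU]
    refine ⟨D.seen y, D.seen_sub y, fun h => hn (D.mem_seen.1 h).2, D.seen_sub_S y, by rw [hu],
      fun z hz => Or.inr (D.mem_seen.1 hz).2, Or.inr ⟨hu, rfl⟩⟩

/-- uniform windows -/
theorem uniform {y : κ} {r : V} (hr : r ∈ D.C) (x L : ℕ) (hx : x ≤ L)
    (Y : Finset V) (hY : Y ⊆ D.C) (hrY : r ∉ Y) (hL : ∀ z ∈ Y, D.Lk y L r z)
    (hLL : ∀ z ∈ Y, ∀ z' ∈ Y, z ≠ z' → D.Lk y L z z') :
    Y.card * (L - x) ≤ D.nn (D.b^[x + 1] r) := by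
  have h := D.win_from (y := y) hr x Y hY hrY (fun _ => L - x) (by
    intro z hz
    rw [Nat.sub_add_cancel hx]
    exact hL z hz) (by
    intro z hz z' hz' hne i hi
    exact D.R1 _ _ _ _ (hLL z' hz' z hz hne.symm) (hY hz') (hY hz) hne.symm i (by omega))
  rwa [Finset.sum_const, smul_eq_mul] at h

theorem thin_T {y : κ} (ht : ∀ v ∈ D.C, D.n y v ≤ 1) : D.T y = (D.seen y).card := by
  rw [T_eq, Finset.card_eq_sum_ones]
  refine Finset.sum_congr rfl (fun v hv => ?_)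
  have h := D.mem_seen.1 hv
  have := ht v h.1
  omega

/-- windows of a thin component -/
theorem thin_base {y : κ} (hy : y ∈ D.K) (ht : ∀ v ∈ D.C, D.n y v ≤ 1) {r : V} (hr : r ∈ D.C)
    (hA : D.A y r) {x : ℕ} (hx : x ≤ D.M y + D.sig) :
    D.Dd y * (D.M y + 2 + D.sig - x) ≤ D.nn (D.b^[x + 1] r) := by
  obtain ⟨Y, hY, hrY, hYS, hc, hor, _⟩ := D.others hy hr hA
  have hD := D.Dd_succ hy
  rw [D.thin_T ht] at hD
  have hcard : Y.card = D.Dd y := by omega
  rw [← hcard]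
  have key : ∀ v ∈ D.C, ∀ w ∈ D.C, v ≠ w → 1 ≤ D.n y v → D.A y w →
      D.Lk y (D.M y + 2 + D.sig) v w := by
    intro v hv w hw hne hn hA
    exact D.hmono _ _ _ _ _ (by omega) (D.F1' hy hv hw hne hn hA)
  refine D.uniform (y := y) hr x _ (by omega) Y hY hrY ?_ ?_
  · intro z hz
    have hne : r ≠ z := fun h => hrY (h ▸ hz)
    rcases hor z hz with h | h
    · exact key r hr z (hY hz) hne h (D.A_of_S hy (hYS hz))
    · exact D.hsymm _ _ _ _ (key z (hY hz) r hr hne.symm h hA)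
  · intro z hz z' hz' hne
    rcases D.S_pair (hYS hz) (hYS hz') hne with h | h
    · exact key z (hY hz) z' (hY hz') hne h (D.A_of_S hy (hYS hz'))
    · exact D.hsymm _ _ _ _ (key z' (hY hz') z (hY hz) hne.symm h (D.A_of_S hy (hYS hz)))

/-- windows of a full component -/
theorem full_base {y : κ} (hy : y ∈ D.K) (hf : ∀ v ∈ D.C, 1 ≤ D.n y v → D.n y v = D.m y)
    (hm2 : 2 ≤ D.m y) (hu : D.u y = 1) {r : V} (hr : r ∈ D.C)
    (hA : D.A y r) {x : ℕ} (hx : x ≤ D.M y + D.sig) :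
    (D.seen y).card * (D.M y + D.m y + 1 + D.sig - x) ≤ D.nn (D.b^[x + 1] r) := by
  obtain ⟨Y, hY, hrY, hYS, hc, hor, _⟩ := D.others hy hr hA
  have hcard : Y.card = (D.seen y).card := by omega
  rw [← hcard]
  have key : ∀ v ∈ D.C, ∀ w ∈ D.C, v ≠ w → 1 ≤ D.n y v → D.A y w →
      D.Lk y (D.M y + D.m y + 1 + D.sig) v w := by
    intro v hv w hw hne hn hA
    have h := D.F1' hy hv hw hne hn hA
    rw [hf v hv hn] at h
    exact D.hmono _ _ _ _ _ (by omega) h
  refine D.uniform (y := y) hr x _ (by omega) Y hY hrY ?_ ?_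
  · intro z hz
    have hne : r ≠ z := fun h => hrY (h ▸ hz)
    rcases hor z hz with h | h
    · exact key r hr z (hY hz) hne h (D.A_of_S hy (hYS hz))
    · exact D.hsymm _ _ _ _ (key z (hY hz) r hr hne.symm h hA)
  · intro z hz z' hz' hne
    rcases D.S_pair (hYS hz) (hYS hz') hne with h | h
    · exact key z (hY hz) z' (hY hz') hne h (D.A_of_S hy (hYS hz'))
    · exact D.hsymm _ _ _ _ (key z' (hY hz') z (hY hz) hne.symm h (D.A_of_S hy (hYS hz)))

/-- the conclusion: an unblocked vertex `p` with enough non-neighbours on the cycle -/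
def Goal : Prop := ∃ p ∈ D.C, p ∉ D.W ∧ (∀ y ∈ D.K, ¬ D.str y p) ∧
  ∀ a : κ → ℕ, (∀ y ∈ D.K, a y ≤ 1) → (∀ y ∈ D.K, ¬ D.A y p → a y = 0) →
    ∑ y ∈ D.K, (D.T y + a y) ≤ D.nn p + D.K.card

theorem a_le_u {p : V} {y : κ} (hy : y ∈ D.K) (hp : p ∈ D.C) (hb : ¬ D.Bl p) {a : ℕ}
    (ha : a ≤ 1) (ha0 : ¬ D.A y p → a = 0) : a ≤ D.u y := by
  by_cases hA : D.A y p
  · have hn : D.n y p = 0 := by
      by_contra hcon
      exact hb (Or.inr ⟨y, hy, D.hns y hy p hp (by omega)⟩)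
    rw [u, if_pos ⟨p, hp, hA, hn⟩]
    exact ha
  · rw [ha0 hA]
    exact Nat.zero_le _

/-- an unblocked vertex with enough non-neighbours is what we want -/
theorem final_of {p : V} (hp : p ∈ D.C) (hb : ¬ D.Bl p) (h : ∑ y ∈ D.K, D.Dd y ≤ D.nn p) :
    D.Goal := by
  refine ⟨p, hp, fun hw => hb (Or.inl hw), fun y hy hs => hb (Or.inr ⟨y, hy, hs⟩), ?_⟩
  intro a ha ha0
  have h1 : ∑ y ∈ D.K, (D.T y + a y) ≤ ∑ y ∈ D.K, (D.T y + D.u y) :=
    Finset.sum_le_sum (fun y hy => Nat.add_le_add_left (D.a_le_u hy hp hb (ha y hy) (ha0 y hy)) _)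
  have h2 : ∑ y ∈ D.K, (D.T y + D.u y) = ∑ y ∈ D.K, D.Dd y + D.K.card := by
    rw [Finset.card_eq_sum_ones, ← Finset.sum_add_distrib]
    exact Finset.sum_congr rfl (fun y hy => (D.Dd_succ hy).symm)
  omega

end Pool.Agent.H88C.Dat
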